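import Mathlib
import Pool.Agent.H20.NLDef
import Pool.Agent.H20.NL4

set_option autoImplicit false

namespace Pool.Agent.Results.MP_4236ce_al.NotEq

open Pool.Agent.H20.NL

theorem result : ∃ (G : Type) (_ : Group G), Group.FG G ∧
    (∀ p : ℕ, p.Prime → lowNL (fun N : Subgroup G => dp p N) = 0) ∧
    1 ≤ lowNL (fun N : Subgroup G => delta N) ∧
    (⨆ (p : ℕ) (_ : p.Prime), lowNL (fun N : Subgroup G => dp p N)) ≠
      lowNL (fun N : Subgroup G => delta N) := by
  refine ⟨GG, inferInstance, GG_fg, main.1, main.2, fun h => ?_⟩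
  have a : (⨆ (p : ℕ) (_ : p.Prime), lowNL (fun N : Subgroup GG => dp p N)) ≤ 0 :=
    iSup_le fun p => iSup_le fun hp => (main.1 p hp).le
  rw [h] at a
  exact absurd (main.2.trans a) (by simp)

end Pool.Agent.Results.MP_4236ce_al.NotEq
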